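import Pool.Agent.P8H30.SW.Stm

/-!
# Package C3: a Lie algebra of skew operators in dimension four containing a principal triple
-/

set_option autoImplicit false

open Module

namespace Pool.Agent.P8H49.SW

open Pool.Agent.P8H30.SW

/-- the skew matrices for the antidiagonal form -/
def Z (a0 a1 p q r s p' q' r' s' : ℂ) : Matrix (Fin 4) (Fin 4) ℂ :=
  !![a0, p, r, s; p', a1, q, -r; r', q', -a1, p; s', -r', p', -a0]

theorem Z_add (a0 a1 p q r s p' q' r' s' b0 b1 u v w x u' v' w' x' : ℂ) :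
    Z a0 a1 p q r s p' q' r' s' + Z b0 b1 u v w x u' v' w' x' =
      Z (a0 + b0) (a1 + b1) (p + u) (q + v) (r + w) (s + x) (p' + u') (q' + v') (r' + w')
        (s' + x') := by
  ext i j
  fin_cases i <;> fin_cases j <;> simp [Z] <;> ring

theorem Z_smul (t a0 a1 p q r s p' q' r' s' : ℂ) :
    t • Z a0 a1 p q r s p' q' r' s' =
      Z (t * a0) (t * a1) (t * p) (t * q) (t * r) (t * s) (t * p') (t * q') (t * r')
        (t * s') := by
  ext i j
  fin_cases i <;> fin_cases j <;> simp [Z]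

theorem comE (a0 a1 p q r s p' q' r' s' : ℂ) :
    Z 0 0 3 4 0 0 0 0 0 0 * Z a0 a1 p q r s p' q' r' s' -
      Z a0 a1 p q r s p' q' r' s' * Z 0 0 3 4 0 0 0 0 0 0 =
      Z (3 * p') (4 * q' - 3 * p') (3 * (a1 - a0)) (-8 * a1) (3 * q - 4 * p) (-6 * r) (4 * r')
        (-6 * r') (3 * s') 0 := by
  ext i j
  fin_cases i <;> fin_cases j <;>
    simp [Z] <;> ring

theorem comF (a0 a1 p q r s p' q' r' s' : ℂ) :
    Z 0 0 0 0 0 0 1 1 0 0 * Z a0 a1 p q r s p' q' r' s' -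
      Z a0 a1 p q r s p' q' r' s' * Z 0 0 0 0 0 0 1 1 0 0 =
      Z (-p) (p - q) (-r) (2 * r) (-s) 0 (a0 - a1) (2 * a1) (p' - q') (2 * r') := by
  ext i j
  fin_cases i <;> fin_cases j <;>
    simp [Z] <;> ring

theorem mat (A : Submodule ℂ (Matrix (Fin 4) (Fin 4) ℂ)) (hc : ∀ x ∈ A, ∀ y ∈ A, x * y - y * x ∈ A)
    (hH : Z 3 1 0 0 0 0 0 0 0 0 ∈ A) (hE : Z 0 0 3 4 0 0 0 0 0 0 ∈ A)
    (hF : Z 0 0 0 0 0 0 1 1 0 0 ∈ A) :
    (∀ a0 a1 p q r s p' q' r' s' : ℂ, Z a0 a1 p q r s p' q' r' s' ∈ A) ∨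
    (∀ a0 a1 p q r s p' q' r' s' : ℂ, Z a0 a1 p q r s p' q' r' s' ∈ A →
      s' = 0 ∧ r' = 0 ∧ p' = q' ∧ a0 = 3 * a1 ∧ 4 * p = 3 * q ∧ r = 0 ∧ s = 0) := by
  have up : ∀ a0 a1 p q r s p' q' r' s' : ℂ, Z a0 a1 p q r s p' q' r' s' ∈ A →
      Z (3 * p') (4 * q' - 3 * p') (3 * (a1 - a0)) (-8 * a1) (3 * q - 4 * p) (-6 * r) (4 * r')
        (-6 * r') (3 * s') 0 ∈ A := by
    intro a0 a1 p q r s p' q' r' s' h
    rw [← comE]
    exact hc _ hE _ h
  have dn : ∀ a0 a1 p q r s p' q' r' s' : ℂ, Z a0 a1 p q r s p' q' r' s' ∈ A →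
      Z (-p) (p - q) (-r) (2 * r) (-s) 0 (a0 - a1) (2 * a1) (p' - q') (2 * r') ∈ A := by
    intro a0 a1 p q r s p' q' r' s' h
    rw [← comF]
    exact hc _ hF _ h
  have sm : ∀ t a0 a1 p q r s p' q' r' s' : ℂ, Z a0 a1 p q r s p' q' r' s' ∈ A →
      Z (t * a0) (t * a1) (t * p) (t * q) (t * r) (t * s) (t * p') (t * q') (t * r')
        (t * s') ∈ A := by
    intro t a0 a1 p q r s p' q' r' s' h
    rw [← Z_smul]
    exact A.smul_mem t h
  have ad : ∀ a0 a1 p q r s p' q' r' s' b0 b1 u v w x u' v' w' x' : ℂ,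
      Z a0 a1 p q r s p' q' r' s' ∈ A → Z b0 b1 u v w x u' v' w' x' ∈ A →
      Z (a0 + b0) (a1 + b1) (p + u) (q + v) (r + w) (s + x) (p' + u') (q' + v') (r' + w')
        (s' + x') ∈ A := by
    intro a0 a1 p q r s p' q' r' s' b0 b1 u v w x u' v' w' x' h h'
    rw [← Z_add]
    exact A.add_mem h h'
  by_cases h6 : ∃ t : ℂ, t ≠ 0 ∧ Z 0 0 0 0 0 t 0 0 0 0 ∈ A
  · left
    obtain ⟨t, ht, hZ⟩ := h6
    have x6 : Z 0 0 0 0 0 1 0 0 0 0 ∈ A := by
      convert sm t⁻¹ _ _ _ _ _ _ _ _ _ _ hZ using 1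
      congr 1 <;> first | rw [mul_zero] | rw [inv_mul_cancel₀ ht]
    have x4 : Z 0 0 0 0 (-1) 0 0 0 0 0 ∈ A := by
      convert dn _ _ _ _ _ _ _ _ _ _ x6 using 2 <;> norm_num
    have x2 : Z 0 0 1 (-2) 0 0 0 0 0 0 ∈ A := by
      convert dn _ _ _ _ _ _ _ _ _ _ x4 using 2 <;> norm_num
    have x0 : Z (-1) 3 0 0 0 0 0 0 0 0 ∈ A := by
      convert dn _ _ _ _ _ _ _ _ _ _ x2 using 2 <;> norm_num
    have y2 : Z 0 0 0 0 0 0 (-4) 6 0 0 ∈ A := by
      convert dn _ _ _ _ _ _ _ _ _ _ x0 using 2 <;> norm_num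
    have y4 : Z 0 0 0 0 0 0 0 0 (-10) 0 ∈ A := by
      convert dn _ _ _ _ _ _ _ _ _ _ y2 using 2 <;> norm_num
    have y6 : Z 0 0 0 0 0 0 0 0 0 (-20) ∈ A := by
      convert dn _ _ _ _ _ _ _ _ _ _ y4 using 2 <;> norm_num
    intro a0 a1 p q r s p' q' r' s'
    have g1 := sm ((3 * a0 + a1) / 10) _ _ _ _ _ _ _ _ _ _ hH
    have g2 := sm (-(a0 - 3 * a1) / 10) _ _ _ _ _ _ _ _ _ _ x0
    have g3 := sm ((2 * p + q) / 10) _ _ _ _ _ _ _ _ _ _ hE
    have g4 := sm ((4 * p - 3 * q) / 10) _ _ _ _ _ _ _ _ _ _ x2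
    have g5 := sm ((6 * p' + 4 * q') / 10) _ _ _ _ _ _ _ _ _ _ hF
    have g6 := sm (-(p' - q') / 10) _ _ _ _ _ _ _ _ _ _ y2
    have g7 := sm (-r) _ _ _ _ _ _ _ _ _ _ x4
    have g8 := sm s _ _ _ _ _ _ _ _ _ _ x6
    have g9 := sm (-r' / 10) _ _ _ _ _ _ _ _ _ _ y4
    have g10 := sm (-s' / 20) _ _ _ _ _ _ _ _ _ _ y6
    have k1 := ad _ _ _ _ _ _ _ _ _ _ _ _ _ _ _ _ _ _ _ _ g1 g2
    have k2 := ad _ _ _ _ _ _ _ _ _ _ _ _ _ _ _ _ _ _ _ _ k1 g3
    have k3 := ad _ _ _ _ _ _ _ _ _ _ _ _ _ _ _ _ _ _ _ _ k2 g4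
    have k4 := ad _ _ _ _ _ _ _ _ _ _ _ _ _ _ _ _ _ _ _ _ k3 g5
    have k5 := ad _ _ _ _ _ _ _ _ _ _ _ _ _ _ _ _ _ _ _ _ k4 g6
    have k6 := ad _ _ _ _ _ _ _ _ _ _ _ _ _ _ _ _ _ _ _ _ k5 g7
    have k7 := ad _ _ _ _ _ _ _ _ _ _ _ _ _ _ _ _ _ _ _ _ k6 g8
    have k8 := ad _ _ _ _ _ _ _ _ _ _ _ _ _ _ _ _ _ _ _ _ k7 g9
    have k9 := ad _ _ _ _ _ _ _ _ _ _ _ _ _ _ _ _ _ _ _ _ k8 g10
    convert k9 using 2 <;> ring
  · right
    push Not at h6
    have nz : ∀ t : ℂ, Z 0 0 0 0 0 t 0 0 0 0 ∈ A → t = 0 := by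
      intro t h
      by_contra hcon
      exact h6 t hcon h
    intro a0 a1 p q r s p' q' r' s' z0
    have e1 : s' = 0 := by
      have z6 := up _ _ _ _ _ _ _ _ _ _ (up _ _ _ _ _ _ _ _ _ _ (up _ _ _ _ _ _ _ _ _ _
        (up _ _ _ _ _ _ _ _ _ _ (up _ _ _ _ _ _ _ _ _ _ (up _ _ _ _ _ _ _ _ _ _ z0)))))
      have h : Z 0 0 0 0 0 (-25920 * s') 0 0 0 0 ∈ A := by
        convert z6 using 2 <;> ring
      have := nz _ h
      linear_combination (-1 / 25920 : ℂ) * this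
    subst e1
    have e2 : r' = 0 := by
      have z5 := up _ _ _ _ _ _ _ _ _ _ (up _ _ _ _ _ _ _ _ _ _
        (up _ _ _ _ _ _ _ _ _ _ (up _ _ _ _ _ _ _ _ _ _ (up _ _ _ _ _ _ _ _ _ _ z0))))
      have h : Z 0 0 0 0 0 (-8640 * r') 0 0 0 0 ∈ A := by
        convert z5 using 2 <;> ring
      have := nz _ h
      linear_combination (-1 / 8640 : ℂ) * this
    subst e2
    have e3 : p' = q' := by
      have z4 := up _ _ _ _ _ _ _ _ _ _
        (up _ _ _ _ _ _ _ _ _ _ (up _ _ _ _ _ _ _ _ _ _ (up _ _ _ _ _ _ _ _ _ _ z0)))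
      have h : Z 0 0 0 0 0 (-864 * (p' - q')) 0 0 0 0 ∈ A := by
        convert z4 using 2 <;> ring
      have := nz _ h
      linear_combination (-1 / 864 : ℂ) * this
    subst e3
    have z0' : Z a0 a1 p q r s 0 0 0 0 ∈ A := by
      convert ad _ _ _ _ _ _ _ _ _ _ _ _ _ _ _ _ _ _ _ _ z0
        (sm (-p') _ _ _ _ _ _ _ _ _ _ hF) using 2 <;> ring
    have e4 : a0 = 3 * a1 := by
      have z3 := up _ _ _ _ _ _ _ _ _ _ (up _ _ _ _ _ _ _ _ _ _ (up _ _ _ _ _ _ _ _ _ _ z0'))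
      have h : Z 0 0 0 0 0 (-72 * (a0 - 3 * a1)) 0 0 0 0 ∈ A := by
        convert z3 using 2 <;> ring
      have := nz _ h
      linear_combination (-1 / 72 : ℂ) * this
    subst e4
    have z1 : Z 0 0 p q r s 0 0 0 0 ∈ A := by
      convert ad _ _ _ _ _ _ _ _ _ _ _ _ _ _ _ _ _ _ _ _ z0'
        (sm (-a1) _ _ _ _ _ _ _ _ _ _ hH) using 2 <;> ring
    have e5 : 4 * p = 3 * q := by
      have z2 := up _ _ _ _ _ _ _ _ _ _ (up _ _ _ _ _ _ _ _ _ _ z1)
      have h : Z 0 0 0 0 0 (6 * (4 * p - 3 * q)) 0 0 0 0 ∈ A := by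
        convert z2 using 2 <;> ring
      have := nz _ h
      linear_combination (1 / 6 : ℂ) * this
    have z2 : Z 0 0 0 0 r s 0 0 0 0 ∈ A := by
      convert ad _ _ _ _ _ _ _ _ _ _ _ _ _ _ _ _ _ _ _ _ z1
        (sm (-(p / 3)) _ _ _ _ _ _ _ _ _ _ hE) using 2 <;>
        first | ring1 | linear_combination (1 / 3 : ℂ) * e5
    have e6 : r = 0 := by
      have h : Z 0 0 0 0 0 (-6 * r) 0 0 0 0 ∈ A := by
        convert up _ _ _ _ _ _ _ _ _ _ z2 using 2 <;> ring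
      have := nz _ h
      linear_combination (-1 / 6 : ℂ) * this
    subst e6
    exact ⟨rfl, rfl, rfl, rfl, e5, rfl, nz _ z2⟩

section form

variable {W : Type} [AddCommGroup W] [Module ℂ W] {ω : W →ₗ[ℂ] W →ₗ[ℂ] ℂ}
  {h e f : Module.End ℂ W} {b : Basis (Fin 4) ℂ W}

theorem anti (hω : Sym ω) (u v : W) : ω u v = -ω v u := by
  have h1 := hω.alt (u + v)
  simp only [map_add, LinearMap.add_apply, hω.alt, zero_add, add_zero] at h1
  linear_combination h1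

/-- the form on the basis -/
theorem form_eq (hω : Sym ω) (hs : Std 3 h e f b) (sh : Skew ω h) (sf : Skew ω f) :
    ∃ c : ℂ, c ≠ 0 ∧ (∀ i j : Fin 4, (i : ℕ) + (j : ℕ) ≠ 3 → ω (b i) (b j) = 0) ∧
      ω (b 0) (b 3) = c ∧ ω (b 3) (b 0) = -c ∧ ω (b 1) (b 2) = -c ∧ ω (b 2) (b 1) = c := by
  have key : ∀ i j : Fin 4, (i : ℕ) + (j : ℕ) ≠ 3 → ω (b i) (b j) = 0 := by
    intro i j hij
    have h1 := sh (b i) (b j)
    rw [hs.hb, hs.hb] at h1
    simp only [map_smul, LinearMap.smul_apply, smul_eq_mul] at h1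
    have h2 : (3 : ℂ) - (((i : ℕ) : ℂ) + ((j : ℕ) : ℂ)) ≠ 0 := by
      intro h3
      apply hij
      have h4 : (((i : ℕ) + (j : ℕ) : ℕ) : ℂ) = ((3 : ℕ) : ℂ) := by
        push_cast
        linear_combination -h3
      exact_mod_cast h4
    have h3 : ((3 : ℂ) - (((i : ℕ) : ℂ) + ((j : ℕ) : ℂ))) * ω (b i) (b j) = 0 := by
      push_cast at h1
      linear_combination (1 / 2 : ℂ) * h1
    exact (mul_eq_zero.1 h3).resolve_left h2
  have f0 : f (b 0) = b 1 := hs.fb 0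
  have f2 : f (b 2) = b 3 := hs.fb 2
  have h12 : ω (b 1) (b 2) = -ω (b 0) (b 3) := by
    have h1 := sf (b 0) (b 2)
    rw [f0, f2] at h1
    linear_combination h1
  refine ⟨ω (b 0) (b 3), ?_, key, rfl, anti hω _ _, h12, ?_⟩
  · intro hc
    have h1 : ω (b 0) = 0 := by
      refine b.ext fun j => ?_
      rw [LinearMap.zero_apply]
      by_cases hj : (j : ℕ) = 3
      · have h2 : j = 3 := Fin.ext hj
        rw [h2, hc]
      · exact key 0 j (by simpa using hj)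
    exact b.ne_zero 0 (hω.nd _ fun v => by rw [h1, LinearMap.zero_apply])
  · rw [anti hω, h12, neg_neg]

/-- skew operators in the basis -/
theorem skew_mat {c : ℂ} (hc : c ≠ 0)
    (key : ∀ i j : Fin 4, (i : ℕ) + (j : ℕ) ≠ 3 → ω (b i) (b j) = 0)
    (c03 : ω (b 0) (b 3) = c) (c30 : ω (b 3) (b 0) = -c) (c12 : ω (b 1) (b 2) = -c)
    (c21 : ω (b 2) (b 1) = c) (x : Module.End ℂ W) (hx : Skew ω x) :
    ∃ a0 a1 p q r s p' q' r' s' : ℂ,
      x = Matrix.toLinAlgEquiv b (Z a0 a1 p q r s p' q' r' s') := by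
  obtain ⟨X, hX⟩ : ∃ X : Matrix (Fin 4) (Fin 4) ℂ, X = LinearMap.toMatrixAlgEquiv b x := ⟨_, rfl⟩
  have hXx : x = Matrix.toLinAlgEquiv b X := by
    rw [hX, Matrix.toLinAlgEquiv_toMatrixAlgEquiv]
  have hxb : ∀ j, x (b j) = ∑ i, X i j • b i := by
    intro j
    rw [hXx, Matrix.toLinAlgEquiv_self]
  have rel : ∀ j k, (∑ i, X i j * ω (b i) (b k)) + ∑ i, X i k * ω (b j) (b i) = 0 := by
    intro j k
    have h1 := hx (b j) (b k)
    rw [hxb, hxb, map_sum, map_sum, LinearMap.sum_apply] at h1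
    simpa only [map_smul, LinearMap.smul_apply, smul_eq_mul] using h1
  have k00 := key 0 0 (by decide)
  have k01 := key 0 1 (by decide)
  have k02 := key 0 2 (by decide)
  have k10 := key 1 0 (by decide)
  have k11 := key 1 1 (by decide)
  have k13 := key 1 3 (by decide)
  have k20 := key 2 0 (by decide)
  have k22 := key 2 2 (by decide)
  have k23 := key 2 3 (by decide)
  have k31 := key 3 1 (by decide)
  have k32 := key 3 2 (by decide)
  have k33 := key 3 3 (by decide)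
  have r01 := rel 0 1
  have r02 := rel 0 2
  have r03 := rel 0 3
  have r12 := rel 1 2
  have r13 := rel 1 3
  have r23 := rel 2 3
  rw [Fin.sum_univ_four, Fin.sum_univ_four] at r01 r02 r03 r12 r13 r23
  rw [k01, k11, k31, c21, k00, k02, c03] at r01
  rw [k02, c12, k22, k32, k00, k01, c03] at r02
  rw [c03, k13, k23, k33, k00, k01, k02] at r03
  rw [k02, c12, k22, k32, k10, k11, k13] at r12
  rw [c03, k13, k23, k33, k10, k11, c12] at r13
  rw [c03, k13, k23, k33, k20, c21, k22] at r23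
  refine ⟨X 0 0, X 1 1, X 0 1, X 1 2, X 0 2, X 0 3, X 1 0, X 2 1, X 2 0, X 3 0, ?_⟩
  rw [hXx]
  congr 1
  have e1 : X 3 1 = -X 2 0 := mul_left_cancel₀ hc (by linear_combination r01)
  have e2 : X 3 2 = X 1 0 := mul_left_cancel₀ hc (by linear_combination r02)
  have e3 : X 3 3 = -X 0 0 := mul_left_cancel₀ hc (by linear_combination r03)
  have e4 : X 2 2 = -X 1 1 := mul_left_cancel₀ hc (by linear_combination -r12)
  have e5 : X 2 3 = X 0 1 := mul_left_cancel₀ hc (by linear_combination -r13)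
  have e6 : X 1 3 = -X 0 2 := mul_left_cancel₀ hc (by linear_combination r23)
  ext i j
  fin_cases i <;> fin_cases j <;> simp [Z, e1, e2, e3, e4, e5, e6]

end form

theorem c3 : S_C3 := by
  intro W _ _ ω h e f b L hω hs hL hsk hh he hf
  obtain ⟨c, hc, key, c03, c30, c12, c21⟩ := form_eq hω hs (hsk hh) (hsk hf)
  have hbh : ∀ k : Fin 4, h (b k) = ((3 : ℂ) - 2 * ((k : ℕ) : ℂ)) • b k := fun k => by
    have := hs.hb k
    push_cast at this
    exact this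
  have f0 : f (b 0) = b 1 := hs.fb 0
  have f1 : f (b 1) = b 2 := hs.fb 1
  have f2 : f (b 2) = b 3 := hs.fb 2
  have f3 : f (b 3) = 0 := hs.fl
  have e0 : e (b 0) = 0 := hs.e0
  have e1 : e (b 1) = (3 : ℂ) • b 0 := by
    have := hs.eb 0
    norm_num at this
    exact this
  have e2 : e (b 2) = (4 : ℂ) • b 1 := by
    have := hs.eb 1
    norm_num at this
    exact this
  have e3 : e (b 3) = (3 : ℂ) • b 2 := by
    have := hs.eb 2
    norm_num at this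
    exact this
  have mh : h = Matrix.toLinAlgEquiv b (Z 3 1 0 0 0 0 0 0 0 0) := by
    refine b.ext fun j => ?_
    rw [Matrix.toLinAlgEquiv_self, Fin.sum_univ_four, hbh]
    fin_cases j <;> simp [Z] <;> norm_num
  have me : e = Matrix.toLinAlgEquiv b (Z 0 0 3 4 0 0 0 0 0 0) := by
    refine b.ext fun j => ?_
    rw [Matrix.toLinAlgEquiv_self, Fin.sum_univ_four]
    fin_cases j <;> simp [Z, e0, e1, e2, e3]
  have mf : f = Matrix.toLinAlgEquiv b (Z 0 0 0 0 0 0 1 1 0 0) := by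
    refine b.ext fun j => ?_
    rw [Matrix.toLinAlgEquiv_self, Fin.sum_univ_four]
    fin_cases j <;> simp [Z, f0, f1, f2, f3]
  let φ : Matrix (Fin 4) (Fin 4) ℂ →ₗ[ℂ] Module.End ℂ W := (Matrix.toLinAlgEquiv b).toLinearMap
  rcases mat (L.comap φ) (fun x hx y hy => by
      change Matrix.toLinAlgEquiv b (x * y - y * x) ∈ L
      rw [map_sub, map_mul, map_mul]
      exact hL _ hx _ hy) (by
      change Matrix.toLinAlgEquiv b _ ∈ L
      rw [← mh]
      exact hh) (by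
      change Matrix.toLinAlgEquiv b _ ∈ L
      rw [← me]
      exact he) (by
      change Matrix.toLinAlgEquiv b _ ∈ L
      rw [← mf]
      exact hf) with hall | hsome
  · left
    refine le_antisymm hsk fun x hx => ?_
    obtain ⟨a0, a1, p, q, r, s, p', q', r', s', rfl⟩ := skew_mat hc key c03 c30 c12 c21 x hx
    exact hall a0 a1 p q r s p' q' r' s'
  · right
    refine le_antisymm (fun x hx => ?_) (Submodule.span_le.2 ?_)
    · obtain ⟨a0, a1, p, q, r, s, p', q', r', s', rfl⟩ :=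
        skew_mat hc key c03 c30 c12 c21 x (hsk hx)
      obtain ⟨rfl, rfl, rfl, rfl, h5, rfl, rfl⟩ := hsome a0 a1 p q r s p' q' r' s' hx
      have h6 : Z (3 * a1) a1 p q 0 0 p' p' 0 0 = a1 • Z 3 1 0 0 0 0 0 0 0 0 +
          (p / 3) • Z 0 0 3 4 0 0 0 0 0 0 + p' • Z 0 0 0 0 0 0 1 1 0 0 := by
        rw [Z_smul, Z_smul, Z_smul, Z_add, Z_add]
        congr 1 <;> first | ring1 | linear_combination (-1 / 3 : ℂ) * h5
      rw [h6, map_add, map_add, map_smul, map_smul, map_smul, ← mh, ← me, ← mf]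
      exact Submodule.add_mem _ (Submodule.add_mem _
        (Submodule.smul_mem _ _ (Submodule.subset_span (by simp)))
        (Submodule.smul_mem _ _ (Submodule.subset_span (by simp))))
        (Submodule.smul_mem _ _ (Submodule.subset_span (by simp)))
    · intro x hx
      rcases hx with rfl | rfl | rfl
      · exact hh
      · exact he
      · exact hf

end Pool.Agent.P8H49.SW
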