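import Pool.Agent.P8H30.SW.Stm

/-!
# Package RIB: the lemma of Goursat and Ribet with classes
-/

set_option autoImplicit false

open Module

namespace Pool.Agent.P8H49.SW

open Pool.Agent.P8H30.SW

open scoped Classical in
theorem rib : S_RIB := by
  intro V _ _ n W L hL hst hsimp i
  obtain ⟨Li, ⟨hid, hspan⟩, him, hsur⟩ := hsimp i
  have him' : ∀ x ∈ L, ∀ c : Module.End ℂ (W i), (∀ u : W i, ((c u : W i) : V) = x u) →
      c ∈ Li := by
    intro x hx c hc
    have h1 : c = x.restrict (hst i x hx) := by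
      refine LinearMap.ext fun u => Subtype.ext ?_
      exact hc u
    rw [h1]
    exact him x hx
  have hsur' : ∀ c ∈ Li, ∃ x ∈ L, ∀ u : W i, ((c u : W i) : V) = x u := by
    intro c hc
    obtain ⟨x, hx, h⟩ := hsur c hc
    exact ⟨x, hx, fun u => by rw [← h]; rfl⟩
  -- the ideal
  have hone : ∀ j, (∃ z ∈ L, (∀ u ∈ W j, z u = 0) ∧ ∃ u ∈ W i, z u ≠ 0) → ∀ c ∈ Li,
      ∃ z ∈ L, (∀ u ∈ W j, z u = 0) ∧ ∀ u : W i, ((c u : W i) : V) = z u := by
    rintro j ⟨z₀, hz₀, hz0, u₀, hu₀, hne⟩
    let J : Submodule ℂ (Module.End ℂ (W i)) :=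
      { carrier := {c | ∃ z ∈ L, (∀ u ∈ W j, z u = 0) ∧ ∀ u : W i, ((c u : W i) : V) = z u}
        zero_mem' := ⟨0, L.zero_mem, fun _ _ => rfl, fun _ => rfl⟩
        add_mem' := by
          rintro a b ⟨z, hz, h1, h2⟩ ⟨z', hz', h1', h2'⟩
          refine ⟨z + z', L.add_mem hz hz', fun u hu => ?_, fun u => ?_⟩
          · rw [LinearMap.add_apply, h1 u hu, h1' u hu, add_zero]
          · rw [LinearMap.add_apply, LinearMap.add_apply, Submodule.coe_add, h2, h2']
        smul_mem' := by
          rintro t a ⟨z, hz, h1, h2⟩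
          refine ⟨t • z, L.smul_mem t hz, fun u hu => ?_, fun u => ?_⟩
          · rw [LinearMap.smul_apply, h1 u hu, smul_zero]
          · rw [LinearMap.smul_apply, LinearMap.smul_apply, Submodule.coe_smul, h2] }
    have hJ : J ≤ Li := by
      rintro c ⟨z, hz, -, h2⟩
      exact him' z hz c h2
    have hJi : ∀ x ∈ Li, ∀ y ∈ J, x * y - y * x ∈ J := by
      rintro x hx y ⟨z, hz, h1, h2⟩
      obtain ⟨x', hx', h3⟩ := hsur' x hx
      refine ⟨x' * z - z * x', hL x' hx' z hz, fun u hu => ?_, fun u => ?_⟩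
      · rw [LinearMap.sub_apply, Module.End.mul_apply, Module.End.mul_apply, h1 u hu, map_zero,
          h1 _ (hst j x' hx' u hu), sub_zero]
      · rw [LinearMap.sub_apply, LinearMap.sub_apply, Module.End.mul_apply, Module.End.mul_apply,
          Module.End.mul_apply, Module.End.mul_apply, AddSubgroupClass.coe_sub, h3, h2, h2, h3]
    rcases hid J hJ hJi with h | h
    · exfalso
      have h1 : z₀.restrict (hst i z₀ hz₀) ∈ J := ⟨z₀, hz₀, hz0, fun u => rfl⟩
      rw [h, Submodule.mem_bot] at h1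
      apply hne
      have h2 := congrArg (fun c : Module.End ℂ (W i) => ((c ⟨u₀, hu₀⟩ : W i) : V)) h1
      exact h2
    · intro c hc
      rw [← h] at hc
      exact hc
  have key : ∀ S : Finset (Fin n),
      (∀ j ∈ S, ∃ z ∈ L, (∀ u ∈ W j, z u = 0) ∧ ∃ u ∈ W i, z u ≠ 0) → ∀ c ∈ Li,
      ∃ z ∈ L, (∀ j ∈ S, ∀ u ∈ W j, z u = 0) ∧ ∀ u : W i, ((c u : W i) : V) = z u := by
    intro S
    induction S using Finset.induction_on with
    | empty =>
      intro _ c hc
      obtain ⟨x, hx, h⟩ := hsur' c hc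
      exact ⟨x, hx, fun j hj => absurd hj (Finset.notMem_empty j), h⟩
    | insert j₀ S hj ih =>
      intro hS c hc
      have ih' := ih fun j hjS => hS j (Finset.mem_insert_of_mem hjS)
      have h0 := hone j₀ (hS j₀ (Finset.mem_insert_self _ _))
      have hc' := hspan hc
      clear hc
      induction hc' using Submodule.span_induction with
      | mem c hc =>
        obtain ⟨a, ha, b, hb, rfl⟩ := hc
        obtain ⟨x, hx, x1, x2⟩ := ih' a ha
        obtain ⟨y, hy, y1, y2⟩ := h0 b hb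
        refine ⟨x * y - y * x, hL x hx y hy, fun j hjS u hu => ?_, fun u => ?_⟩
        · rw [LinearMap.sub_apply, Module.End.mul_apply, Module.End.mul_apply]
          rcases Finset.mem_insert.1 hjS with rfl | hjS
          · rw [y1 u hu, map_zero, y1 _ (hst j x hx u hu), sub_zero]
          · rw [x1 j hjS u hu, map_zero, x1 j hjS _ (hst j y hy u hu), sub_zero]
        · rw [LinearMap.sub_apply, LinearMap.sub_apply, Module.End.mul_apply,
            Module.End.mul_apply, Module.End.mul_apply, Module.End.mul_apply,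
            AddSubgroupClass.coe_sub, x2, y2, y2, x2]
      | zero => exact ⟨0, L.zero_mem, fun _ _ _ _ => rfl, fun _ => rfl⟩
      | add a b _ _ ha hb =>
        obtain ⟨x, hx, x1, x2⟩ := ha
        obtain ⟨y, hy, y1, y2⟩ := hb
        refine ⟨x + y, L.add_mem hx hy, fun j hjS u hu => ?_, fun u => ?_⟩
        · rw [LinearMap.add_apply, x1 j hjS u hu, y1 j hjS u hu, add_zero]
        · rw [LinearMap.add_apply, LinearMap.add_apply, Submodule.coe_add, x2, y2]
      | smul t a _ ha =>
        obtain ⟨x, hx, x1, x2⟩ := ha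
        refine ⟨t • x, L.smul_mem t hx, fun j hjS u hu => ?_, fun u => ?_⟩
        · rw [LinearMap.smul_apply, x1 j hjS u hu, smul_zero]
        · rw [LinearMap.smul_apply, LinearMap.smul_apply, Submodule.coe_smul, x2]
  intro x hx
  obtain ⟨y, hy, h1, h2⟩ := key (Finset.univ.filter fun j =>
    ∃ z ∈ L, (∀ u ∈ W j, z u = 0) ∧ ∃ u ∈ W i, z u ≠ 0) (fun j hj => (Finset.mem_filter.1 hj).2)
    (x.restrict (hst i x hx)) (him x hx)
  refine ⟨y, hy, fun u hu => ?_, fun j hj u hu => ?_⟩
  · exact (h2 ⟨u, hu⟩).symm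
  · exact h1 j (Finset.mem_filter.2 ⟨Finset.mem_univ _, hj⟩) u hu

end Pool.Agent.P8H49.SW
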